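import Pool.Agent.Helper29.CP.Base

/-!
MP_82cbb9_al, module CP-1: Fox derivations (Magnus' theorem on the kernel).
-/

set_option autoImplicit false

namespace Pool.Agent.CP

open Polynomial

section Fox
variable {d k : ℕ}

theorem Fox_actB_apply (t : TT k) (m : Fin d → RR k) :
    actB k d t m = (MonoidAlgebra.of ℤ (TT k) t) • m := rfl

theorem Fox_actE_apply {E : Type*} [AddCommGroup E] [Module ℚ E] (ρ : TT k →* Module.End ℚ E)
    (t : TT k) (x : E) : actE ρ t x = ρ t x := rfl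

theorem Fox_kap_add {E : Type*} [AddCommGroup E] [Module ℚ E] (ρ : TT k →* Module.End ℚ E)
    (ε : Fin d → E) (m n : Fin d → RR k) :
    kap ρ ε (m + n) = kap ρ ε m + kap ρ ε n := by
  simp only [kap, Pi.add_apply, map_add, LinearMap.add_apply, Finset.sum_add_distrib]

theorem Fox_kap_zero {E : Type*} [AddCommGroup E] [Module ℚ E] (ρ : TT k →* Module.End ℚ E)
    (ε : Fin d → E) : kap ρ ε (0 : Fin d → RR k) = 0 := by
  simp only [kap, Pi.zero_apply, map_zero, LinearMap.zero_apply, Finset.sum_const_zero]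

theorem Fox_kap_neg {E : Type*} [AddCommGroup E] [Module ℚ E] (ρ : TT k →* Module.End ℚ E)
    (ε : Fin d → E) (m : Fin d → RR k) :
    kap ρ ε (-m) = - kap ρ ε m := by
  have := Fox_kap_add ρ ε (-m) m
  rw [neg_add_cancel, Fox_kap_zero] at this
  exact eq_neg_of_add_eq_zero_left this.symm

theorem Fox_kap_act {E : Type*} [AddCommGroup E] [Module ℚ E] (ρ : TT k →* Module.End ℚ E)
    (ε : Fin d → E) (t : TT k) (m : Fin d → RR k) :
    kap ρ ε (actB k d t m) = ρ t (kap ρ ε m) := by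
  simp only [kap, Fox_actB_apply, Pi.smul_apply, smul_eq_mul, map_mul, MonoidAlgebra.lift_of,
    map_sum]
  rfl

/-- CP-1a -/
theorem kap_foxU {E : Type*} [AddCommGroup E] [Module ℚ E] (ρ : TT k →* Module.End ℚ E)
    (ε : Fin d → E) (τ : FreeGroup (Fin d) →* TT k) (f : FreeGroup (Fin d)) :
    kap ρ ε (foxU τ f) = fox (actE ρ) τ ε f := by
  induction f using FreeGroup.induction_on with
  | C1 => rw [foxU, fox_one, fox_one, Fox_kap_zero]
  | of i =>
    rw [foxU, fox_of, fox_of, kap, Finset.sum_eq_single i]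
    · simp
    · intro j _ hj
      simp [Pi.single_eq_of_ne hj]
    · simp
  | inv_of i h =>
    rw [foxU] at h ⊢
    rw [fox_inv, fox_inv, Fox_kap_neg, Fox_kap_act, h, Fox_actE_apply]
  | mul x y hx hy =>
    rw [foxU] at hx hy ⊢
    rw [fox_mul, fox_mul, Fox_kap_add, Fox_kap_act, hx, hy, Fox_actE_apply]

section Magnus

variable (τ : FreeGroup (Fin d) →* TT k)

open Classical in
/-- class in the abelianization of the kernel, zero outside the kernel -/
noncomputable def FoxCl (x : FreeGroup (Fin d)) : Additive (Abelianization τ.ker) :=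
  if h : x ∈ τ.ker then Additive.ofMul (Abelianization.of ⟨x, h⟩) else 0

theorem FoxCl_of_mem {x : FreeGroup (Fin d)} (h : x ∈ τ.ker) :
    FoxCl τ x = Additive.ofMul (Abelianization.of ⟨x, h⟩) := by
  rw [FoxCl, dif_pos h]

theorem FoxCl_mul {x y : FreeGroup (Fin d)} (hx : x ∈ τ.ker) (hy : y ∈ τ.ker) :
    FoxCl τ (x * y) = FoxCl τ x + FoxCl τ y := by
  rw [FoxCl_of_mem τ hx, FoxCl_of_mem τ hy, FoxCl_of_mem τ (τ.ker.mul_mem hx hy), ← ofMul_mul,
    ← map_mul]
  rfl

theorem FoxCl_one : FoxCl τ 1 = 0 := by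
  have h := FoxCl_mul τ τ.ker.one_mem τ.ker.one_mem
  rw [mul_one] at h
  simpa using h

theorem FoxCl_inv {x : FreeGroup (Fin d)} (hx : x ∈ τ.ker) :
    FoxCl τ x⁻¹ = - FoxCl τ x := by
  have h := FoxCl_mul τ (τ.ker.inv_mem hx) hx
  rw [inv_mul_cancel, FoxCl_one] at h
  exact eq_neg_of_add_eq_zero_left h.symm

theorem FoxCl_eq_zero {x : FreeGroup (Fin d)} (hx : x ∈ τ.ker) (h : FoxCl τ x = 0) :
    x ∈ ⁅τ.ker, τ.ker⁆ := by
  rw [FoxCl_of_mem τ hx] at h
  have h1 : Abelianization.of (⟨x, hx⟩ : τ.ker) = 1 := h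
  have h2 : (⟨x, hx⟩ : τ.ker) ∈ commutator τ.ker := by
    rw [← Abelianization.ker_of]; exact h1
  have h3 : (commutator τ.ker).map τ.ker.subtype = ⁅τ.ker, τ.ker⁆ := by
    rw [commutator_def, Subgroup.map_commutator, ← MonoidHom.range_eq_map, Subgroup.range_subtype]
  rw [← h3]
  exact ⟨⟨x, hx⟩, h2, rfl⟩

open Classical in
/-- a section of `τ` over its range -/
noncomputable def FoxSec (t : TT k) : FreeGroup (Fin d) :=
  if h : ∃ g, τ g = t then h.choose else 1

theorem FoxSec_spec (g : FreeGroup (Fin d)) : τ (FoxSec τ (τ g)) = τ g := by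
  have h : ∃ g', τ g' = τ g := ⟨g, rfl⟩
  rw [FoxSec, dif_pos h]
  exact h.choose_spec

/-- the additive map `(RR k)^d → L^ab` with `t • e_i ↦ [s(t) x_i s(t τ(x_i))⁻¹]` -/
noncomputable def FoxTheta : (Fin d → RR k) →+ Additive (Abelianization τ.ker) :=
  ∑ i, ((Finsupp.liftAddHom fun t : TT k => zmultiplesHom _
        (FoxCl τ (FoxSec τ t * FreeGroup.of i * (FoxSec τ (t * τ (FreeGroup.of i)))⁻¹))).comp
    (MonoidAlgebra.coeffAddEquiv.toAddMonoidHom)).comp (Pi.evalAddMonoidHom _ i)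

theorem FoxTheta_single (i : Fin d) (t : TT k) :
    FoxTheta τ (Pi.single i (MonoidAlgebra.of ℤ (TT k) t))
      = FoxCl τ (FoxSec τ t * FreeGroup.of i * (FoxSec τ (t * τ (FreeGroup.of i)))⁻¹) := by
  rw [FoxTheta, AddMonoidHom.finsetSum_apply, Finset.sum_eq_single i]
  · simp
  · intro j _ hj
    simp [Pi.single_eq_of_ne hj]
  · simp

theorem FoxMem (g f : FreeGroup (Fin d)) :
    FoxSec τ (τ g) * f * (FoxSec τ (τ (g * f)))⁻¹ ∈ τ.ker := by
  rw [MonoidHom.mem_ker, map_mul, map_mul, map_inv, FoxSec_spec, FoxSec_spec, map_mul]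
  simp

theorem FoxTheta_foxU (f : FreeGroup (Fin d)) : ∀ g : FreeGroup (Fin d),
    FoxTheta τ (MonoidAlgebra.of ℤ (TT k) (τ g) • foxU τ f)
      = FoxCl τ (FoxSec τ (τ g) * f * (FoxSec τ (τ (g * f)))⁻¹) := by
  induction f using FreeGroup.induction_on with
  | C1 =>
    intro g
    rw [foxU, fox_one, smul_zero, map_zero, mul_one, mul_one, mul_inv_cancel, FoxCl_one]
  | of i =>
    intro g
    rw [foxU, fox_of, ← Pi.single_smul, smul_eq_mul, mul_one, FoxTheta_single, map_mul]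
  | inv_of i h =>
    intro g
    rw [foxU] at h ⊢
    have h1 := h (g * (FreeGroup.of i)⁻¹)
    rw [fox_inv, Fox_actB_apply, smul_neg, smul_smul, ← map_mul, ← map_inv, ← map_mul, map_neg,
      h1, ← FoxCl_inv τ (FoxMem τ _ _)]
    congr 1
    group
  | mul x y hx hy =>
    intro g
    rw [foxU] at hx hy ⊢
    have h1 := hx g
    have h2 := hy (g * x)
    rw [fox_mul, Fox_actB_apply, smul_add, smul_smul, ← map_mul, ← map_mul, map_add, h1, h2,
      add_comm, ← FoxCl_mul τ (FoxMem τ _ _) (FoxMem τ _ _)]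
    congr 1
    group

end Magnus

/-- CP-1b (Magnus) -/
theorem foxU_ker (τ : FreeGroup (Fin d) →* TT k) {l : FreeGroup (Fin d)} (hl : l ∈ τ.ker)
    (h : foxU τ l = 0) : l ∈ ⁅τ.ker, τ.ker⁆ := by
  have h1 := FoxTheta_foxU τ l 1
  have hs : FoxSec τ (τ 1) ∈ τ.ker := by
    rw [MonoidHom.mem_ker, FoxSec_spec, map_one]
  have h2 : τ (1 * l) = τ 1 := by rw [one_mul, map_one]; exact hl
  rw [h, smul_zero, map_zero, h2, FoxCl_mul τ (τ.ker.mul_mem hs hl) (τ.ker.inv_mem hs),
    FoxCl_mul τ hs hl, FoxCl_inv τ hs] at h1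
  apply FoxCl_eq_zero τ hl
  have h3 : FoxCl τ (FoxSec τ (τ 1)) + FoxCl τ l + -FoxCl τ (FoxSec τ (τ 1)) = FoxCl τ l := by
    abel
  rw [← h3, ← h1]

theorem Fox_zpow_ker (τ : FreeGroup (Fin d) →* TT k) {l : FreeGroup (Fin d)} (hl : l ∈ τ.ker)
    (n : ℤ) : foxU τ (l ^ n) = n • foxU τ l := by
  have hnat : ∀ m : ℕ, foxU τ (l ^ m) = (m : ℤ) • foxU τ l := by
    intro m
    induction m with
    | zero => simp [foxU]
    | succ m ih =>
      rw [pow_succ, foxU, fox_mul_ker _ _ _ (τ.ker.pow_mem hl m)]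
      rw [foxU] at ih
      rw [ih]
      push_cast
      rw [add_smul, one_smul]
      rfl
  cases n with
  | ofNat m => exact hnat m
  | negSucc m =>
    rw [zpow_negSucc, foxU, fox_inv_ker _ _ _ (τ.ker.pow_mem hl (m + 1))]
    have := hnat (m + 1)
    rw [foxU] at this
    rw [this, Int.negSucc_eq, neg_smul]
    push_cast
    rfl

theorem Fox_list_prod (τ : FreeGroup (Fin d) →* TT k) (L : List (FreeGroup (Fin d)))
    (hL : ∀ l ∈ L, l ∈ τ.ker) : foxU τ L.prod = (L.map (foxU τ)).sum := by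
  induction L with
  | nil => simp [foxU]
  | cons a L ih =>
    rw [List.prod_cons, List.map_cons, List.sum_cons, foxU,
      fox_mul_ker _ _ _ (hL a (by simp)), ← foxU, ← foxU, ih fun l hl => hL l (by simp [hl])]

theorem Fox_sum_range {M : Type*} [AddCommMonoid M] (g : ℕ → M) (N : ℕ) :
    ((List.range N).map g).sum = ∑ n ∈ Finset.range N, g n := by
  induction N with
  | zero => simp
  | succ N ih => rw [List.range_succ, List.map_append, List.sum_append, ih,
      Finset.sum_range_succ]; simp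

/-- CP-1c -/
theorem foxU_pw (τ : FreeGroup (Fin d) →* TT k) (f : FreeGroup (Fin d))
    {y : FreeGroup (Fin d)} (hy : y ∈ τ.ker) (p : ℤ[X]) :
    foxU τ (pw f y p) = (aeval (MonoidAlgebra.of ℤ (TT k) (τ f)) p : RR k) • foxU τ y := by
  have hc : ∀ n : ℕ, f ^ n * y * (f ^ n)⁻¹ ∈ τ.ker := fun n =>
    (inferInstance : τ.ker.Normal).conj_mem y hy (f ^ n)
  rw [pw, Fox_list_prod]
  · rw [List.map_map, Fox_sum_range, Polynomial.aeval_eq_sum_range, Finset.sum_smul]
    refine Finset.sum_congr rfl fun n _ => ?_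
    rw [Function.comp_apply, Fox_zpow_ker τ (hc n), foxU, fox_conj _ _ _ _ hy, ← foxU,
      Fox_actB_apply, map_pow, map_pow, smul_assoc]
  · intro l hl
    rw [List.mem_map] at hl
    obtain ⟨n, _, rfl⟩ := hl
    exact τ.ker.zpow_mem (hc n) _

end Fox

end Pool.Agent.CP
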